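import Pool.Agent.W95.BK.Asm
import Pool.Agent.W95.EQ.Asm

/-!
# Repelling fixed points in Berkovich hyperbolic space

If the Lyapunov exponent of `R` is positive then the sum of the local degrees of `R^n` over the
repelling fixed points of `R^n` in `ℍ_K` is `o(d^n)`.
-/

open Topology Filter MeasureTheory
open scoped ENNReal
open Pool.Agent.W95.BK Pool.Agent.W95.EQ

namespace Pool.Agent.Results.MP_edb0ca_an.RepellingDegrees

universe u

theorem result : ∀ (K : Type u) [NontriviallyNormedField K] [IsUltrametricDist K]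
    [CompleteSpace K] [IsAlgClosed K] (R : RMap K), 2 ≤ R.d →
    ∀ (ρ : Measure (P1B K)), IsEqMeasure R ρ →
    0 < ∫ x, Real.log (sphDeriv R x) ∂ρ →
    Tendsto (fun n : ℕ => (∑' x : RFixH (R.iter n), (localDeg (R.iter n) x : ℝ≥0∞)) /
      (R.d : ℝ≥0∞) ^ n) atTop (𝓝 0) :=
  fun K _ _ _ _ R hd ρ hρ hχ => asm K R hd ρ hρ.prob (tEQM K R hd ρ hρ) hχ

end Pool.Agent.Results.MP_edb0ca_an.RepellingDegrees
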